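import Pool.Agent.helper92.VT.Spec

/-!
# Row vt:TNR: tensor networks satisfy the rank condition
-/

set_option autoImplicit false

universe u

namespace Pool.Agent.helper92.VT

open MvPolynomial Pool.Agent.helper92.VC

section
variable {ι : Type} [DecidableEq ι] {K : Type u} [Field K] {w : ℕ}

theorem TNR_dep (t : Tr ι) : ∀ Q : Fin w → (ι → ℕ) → K, TNet K w t Q →
    ∀ (s : Fin w) (e e' : ι → ℕ), (∀ x ∈ t.leaves, e x = e' x) → Q s e = Q s e' := by
  induction t with
  | leaf x =>
    intro Q hQ s e e' h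
    obtain ⟨p, hp⟩ := hQ s
    rw [hp]
    show p (e x) = p (e' x)
    rw [h x (by unfold Tr.leaves; exact List.mem_singleton.2 rfl)]
  | node a b iha ihb =>
    rintro Q ⟨Qa, Qb, ha, hb, q, hq⟩ s e e' h
    have h' : ∀ x ∈ a.leaves ++ b.leaves, e x = e' x := h
    rw [hq s]
    refine Finset.sum_congr rfl fun i _ => Finset.sum_congr rfl fun j _ => ?_
    rw [iha Qa ha i e e' (fun x hx => h' x (List.mem_append_left _ hx)),
      ihb Qb hb j e e' (fun x hx => h' x (List.mem_append_right _ hx))]

theorem TNR_dim (l : List ι) (Q W : Fin w → (ι → ℕ) → K)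
    (hQ : ∀ (s : Fin w) (e e' : ι → ℕ), (∀ x ∈ l, e x = e' x) → Q s e = Q s e')
    (hW : ∀ s γ e, W s (ovr l γ e) = W s e) :
    DimLE K w {T' | ∃ T ∈ ({fun e => ∑ s, Q s e * W s e} : Set ((ι → ℕ) → K)),
      ∃ γ, T' = fixs l γ T} := by
  refine ⟨W, ?_⟩
  rintro T' ⟨T, hT, γ, rfl⟩
  rw [Set.mem_singleton_iff] at hT
  subst hT
  have h1 : fixs l γ (fun e => ∑ s, Q s e * W s e) = ∑ s, Q s γ • W s := by
    funext e
    unfold fixs
    rw [Finset.sum_apply]
    refine Finset.sum_congr rfl fun s _ => ?_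
    rw [hW, hQ s (ovr l γ e) γ (fun x hx => by unfold ovr; rw [if_pos hx])]
    rfl
  rw [h1]
  exact Submodule.sum_mem _ fun s _ => Submodule.smul_mem _ _ (Submodule.subset_span ⟨s, rfl⟩)

theorem TNR_aux (t : Tr ι) : t.leaves.Nodup → ∀ Q : Fin w → (ι → ℕ) → K, TNet K w t Q →
    ∀ W : Fin w → (ι → ℕ) → K, (∀ s γ e, W s (ovr t.leaves γ e) = W s e) →
    TR K w t {fun e => ∑ s, Q s e * W s e} := by
  induction t with
  | leaf x =>
    intro _ Q hQ W hW
    exact TNR_dim [x] Q W (fun s e e' h => TNR_dep (Tr.leaf x) Q hQ s e e' h) hW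
  | node a b iha ihb =>
    intro hnd Q hQ W hW
    have hnd' : (a.leaves ++ b.leaves).Nodup := hnd
    rw [List.nodup_append] at hnd'
    obtain ⟨na, nb, hdis⟩ := hnd'
    have hW' : ∀ s γ e, W s (ovr (a.leaves ++ b.leaves) γ e) = W s e := hW
    refine ⟨TNR_dim (a.leaves ++ b.leaves) Q W
      (fun s e e' h => TNR_dep (Tr.node a b) Q hQ s e e' h) hW, ?_, ?_⟩
    · obtain ⟨Qa, Qb, ha, hb, q, hq⟩ := hQ
      have h1 : (fun e => ∑ s, Q s e * W s e) =
          fun e => ∑ i, Qa i e * (∑ s, ∑ j, q s i j * Qb j e * W s e) := by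
        funext e
        simp only [hq, Finset.sum_mul, Finset.mul_sum]
        rw [Finset.sum_comm]
        refine Finset.sum_congr rfl fun i _ => Finset.sum_congr rfl fun s _ =>
          Finset.sum_congr rfl fun j _ => ?_
        ring
      rw [h1]
      refine iha na Qa ha (fun i e => ∑ s, ∑ j, q s i j * Qb j e * W s e) ?_
      intro i γ e
      refine Finset.sum_congr rfl fun s _ => Finset.sum_congr rfl fun j _ => ?_
      have e1 : ovr a.leaves γ e = ovr (a.leaves ++ b.leaves) (ovr a.leaves γ e) e := by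
        funext x
        unfold ovr
        by_cases hx : x ∈ a.leaves
        · rw [if_pos hx, if_pos (List.mem_append_left _ hx)]
        · rw [if_neg hx]
          split_ifs <;> rfl
      have e2 : W s (ovr a.leaves γ e) = W s e := by rw [e1, hW']
      have e3 : Qb j (ovr a.leaves γ e) = Qb j e := by
        refine TNR_dep b Qb hb j _ _ fun x hx => ?_
        unfold ovr
        rw [if_neg]
        intro hx'
        exact hdis x hx' x hx rfl
      rw [e2, e3]
    · obtain ⟨Qa, Qb, ha, hb, q, hq⟩ := hQ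
      have h1 : (fun e => ∑ s, Q s e * W s e) =
          fun e => ∑ j, Qb j e * (∑ s, ∑ i, q s i j * Qa i e * W s e) := by
        funext e
        simp only [hq, Finset.sum_mul, Finset.mul_sum]
        rw [Finset.sum_comm]
        rw [Finset.sum_comm]
        have h2 : ∀ y ∈ Finset.univ, (∑ i, ∑ j, q y i j * (Qa i e * Qb j e) * W y e) =
            ∑ j, ∑ i, q y i j * (Qa i e * Qb j e) * W y e := fun y _ => Finset.sum_comm
        rw [Finset.sum_congr rfl h2, Finset.sum_comm]
        refine Finset.sum_congr rfl fun i _ => Finset.sum_congr rfl fun s _ =>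
          Finset.sum_congr rfl fun j _ => ?_
        ring
      rw [h1]
      refine ihb nb Qb hb (fun j e => ∑ s, ∑ i, q s i j * Qa i e * W s e) ?_
      intro j γ e
      refine Finset.sum_congr rfl fun s _ => Finset.sum_congr rfl fun i _ => ?_
      have e1 : ovr b.leaves γ e = ovr (a.leaves ++ b.leaves) (ovr b.leaves γ e) e := by
        funext x
        unfold ovr
        by_cases hx : x ∈ b.leaves
        · rw [if_pos hx, if_pos (List.mem_append_right _ hx)]
        · rw [if_neg hx]
          split_ifs <;> rfl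
      have e2 : W s (ovr b.leaves γ e) = W s e := by rw [e1, hW']
      have e3 : Qa i (ovr b.leaves γ e) = Qa i e := by
        refine TNR_dep a Qa ha i _ _ fun x hx => ?_
        unfold ovr
        rw [if_neg]
        intro hx'
        exact hdis x hx x hx' rfl
      rw [e2, e3]

end

/-- TNR. -/
theorem TNR : TNR_stmt.{u} := by
  intro ι _ K _ w t hnd Q v hQ
  have h := TNR_aux t hnd Q hQ (fun s _ => v s) (fun s γ e => rfl)
  have h1 : (fun e => ∑ s, v s * Q s e) = fun e => ∑ s, Q s e * v s := by
    funext e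
    exact Finset.sum_congr rfl fun s _ => mul_comm _ _
  rw [h1]
  exact h

end Pool.Agent.helper92.VT
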